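import Pool.Agent.Helper95.HS.GoalsA

/-!
# Packet HS HOLS: the integral estimate
-/

open Complex Metric Set Filter Topology MeasureTheory
open scoped ContDiff ComplexConjugate ComplexOrder Manifold Matrix

namespace Pool.Agent.Helper31.HS

open Pool.Agent.Helper95.Lin Pool.Agent.Helper16.Abund Pool.Agent.Helper10.SP
  Pool.Agent.Helper57.HS Pool.Agent.Helper95.HS

universe u v

section hoelder

variable {n : ℕ} {T K : Set (Cn n)}

theorem memLp_cs (hK : IsCompact K) (hKT : K ⊆ T)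
    {h : Cn n → ℝ} (hc : ContinuousOn h T) (h0 : ∀ x ∈ T, x ∉ K → h x = 0)
    (hT : IsOpen T) (p : ENNReal) : MemLp h p (volume.restrict T) := by
  have hKm : MeasurableSet K := hK.measurableSet
  have e1 : h =ᵐ[volume.restrict T] K.indicator h := by
    rw [Filter.EventuallyEq, ae_restrict_iff' hT.measurableSet]
    refine Eventually.of_forall fun x hx => ?_
    by_cases hxK : x ∈ K
    · rw [indicator_of_mem hxK]
    · rw [indicator_of_notMem hxK, h0 x hx hxK]
  refine (memLp_congr_ae e1).2 ?_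
  rw [memLp_indicator_iff_restrict hKm, Measure.restrict_restrict hKm,
    inter_eq_left.2 hKT]
  obtain ⟨M, hM⟩ := hK.exists_bound_of_continuousOn (hc.mono hKT)
  have : IsFiniteMeasure (volume.restrict K) :=
    ⟨by rw [Measure.restrict_apply_univ]; exact hK.measure_lt_top⟩
  refine MemLp.of_bound ((hc.mono hKT).aestronglyMeasurable hKm) M ?_
  rw [ae_restrict_iff' hKm]
  exact Eventually.of_forall fun x hx => hM x hx

theorem integ_cs (hK : IsCompact K) (hKT : K ⊆ T)
    {h : Cn n → ℝ} (hc : ContinuousOn h T) (h0 : ∀ x ∈ T, x ∉ K → h x = 0)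
    (hT : IsOpen T) : IntegrableOn h T :=
  memLp_one_iff_integrable.1 (memLp_cs hK hKT hc h0 hT 1)

theorem hoelder_aux (hK : IsCompact K) (hKT : K ⊆ T) (hT : IsOpen T) {w Y : Cn n → ℝ}
    (hwc : ContinuousOn w T) (hw0 : ∀ x ∈ T, 0 ≤ w x) (hwK : ∀ x ∈ T, x ∉ K → w x = 0)
    (hYc : ContinuousOn Y T) (hY0 : ∀ x ∈ T, 0 ≤ Y x) (m : ℕ) (hm : 0 < m) {S : Set (Cn n)}
    (hS : MeasurableSet S) :
    ∫ x in T ∩ S, w x * Y x ^ ((m : ℝ) / ((m : ℝ) + 1)) ≤
      (∫ x in T ∩ S, w x) ^ ((2 * (m : ℝ) + 1) / (2 * m + 2)) *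
        (∫ x in T, w x * Y x ^ (2 * m)) ^ (1 / (2 * (m : ℝ) + 2)) := by
  have hm' : (0 : ℝ) < m := by exact_mod_cast hm
  set p : ℝ := (2 * (m : ℝ) + 2) / (2 * m + 1) with hp
  set q : ℝ := 2 * (m : ℝ) + 2 with hq
  have hp0 : 0 < p := by positivity
  have hq0 : 0 < q := by positivity
  have hpq : p.HolderConjugate q := by
    rw [Real.holderConjugate_iff]
    constructor
    · rw [hp, lt_div_iff₀ (by positivity)]
      linarith
    · rw [hp, hq, inv_div]
      field_simp
      ring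
  set f : Cn n → ℝ := S.indicator fun x => w x ^ (1 / p) with hf
  set g : Cn n → ℝ := fun x => Y x ^ ((m : ℝ) / ((m : ℝ) + 1)) * w x ^ (1 / q) with hg
  have hfL : MemLp f (ENNReal.ofReal p) (volume.restrict T) := by
    refine MemLp.indicator hS ?_
    refine memLp_cs hK hKT (hwc.rpow_const fun x _ => Or.inr (by positivity)) ?_ hT _
    intro x hx hxK
    rw [hwK x hx hxK, Real.zero_rpow (by positivity)]
  have hgL : MemLp g (ENNReal.ofReal q) (volume.restrict T) := by
    refine memLp_cs hK hKT ((hYc.rpow_const fun x _ => Or.inr (by positivity)).mul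
      (hwc.rpow_const fun x _ => Or.inr (by positivity))) ?_ hT _
    intro x hx hxK
    show Y x ^ ((m : ℝ) / ((m : ℝ) + 1)) * w x ^ (1 / q) = 0
    rw [hwK x hx hxK, Real.zero_rpow (by positivity), mul_zero]
  have hf0 : 0 ≤ᵐ[volume.restrict T] f := by
    rw [Filter.EventuallyLE, ae_restrict_iff' hT.measurableSet]
    refine Eventually.of_forall fun x hx => ?_
    simp only [hf, Pi.zero_apply]
    exact indicator_apply_nonneg fun _ => Real.rpow_nonneg (hw0 x hx) _
  have hg0 : 0 ≤ᵐ[volume.restrict T] g := by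
    rw [Filter.EventuallyLE, ae_restrict_iff' hT.measurableSet]
    refine Eventually.of_forall fun x hx => ?_
    simp only [hg, Pi.zero_apply]
    exact mul_nonneg (Real.rpow_nonneg (hY0 x hx) _) (Real.rpow_nonneg (hw0 x hx) _)
  have key := integral_mul_le_Lp_mul_Lq_of_nonneg hpq hf0 hg0 hfL hgL
  have restr : ∀ F : Cn n → ℝ, ∫ x in T ∩ S, F x = ∫ x in T, S.indicator F x := by
    intro F
    rw [integral_indicator hS, Measure.restrict_restrict hS, inter_comm]
  have e1 : ∫ x in T, f x * g x = ∫ x in T ∩ S, w x * Y x ^ ((m : ℝ) / ((m : ℝ) + 1)) := by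
    rw [restr]
    refine setIntegral_congr_fun hT.measurableSet fun x hx => ?_
    simp only [hf, hg]
    by_cases hxS : x ∈ S
    · rw [indicator_of_mem hxS, indicator_of_mem hxS]
      have : w x ^ (1 / p) * w x ^ (1 / q) = w x := by
        rw [← Real.rpow_add_of_nonneg (hw0 x hx) (by positivity) (by positivity)]
        have : 1 / p + 1 / q = 1 := by
          rw [hp, hq]
          field_simp
          ring
        rw [this, Real.rpow_one]
      calc w x ^ (1 / p) * (Y x ^ ((m : ℝ) / ((m : ℝ) + 1)) * w x ^ (1 / q))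
          = (w x ^ (1 / p) * w x ^ (1 / q)) * Y x ^ ((m : ℝ) / ((m : ℝ) + 1)) := by ring
        _ = w x * Y x ^ ((m : ℝ) / ((m : ℝ) + 1)) := by rw [this]
    · rw [indicator_of_notMem hxS, indicator_of_notMem hxS, zero_mul]
  have e2 : ∫ x in T, f x ^ p = ∫ x in T ∩ S, w x := by
    rw [restr]
    refine setIntegral_congr_fun hT.measurableSet fun x hx => ?_
    simp only [hf]
    by_cases hxS : x ∈ S
    · rw [indicator_of_mem hxS, indicator_of_mem hxS, ← Real.rpow_mul (hw0 x hx),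
        one_div_mul_cancel hp0.ne', Real.rpow_one]
    · rw [indicator_of_notMem hxS, indicator_of_notMem hxS, Real.zero_rpow hp0.ne']
  have e3 : ∫ x in T, g x ^ q = ∫ x in T, w x * Y x ^ (2 * m) := by
    refine setIntegral_congr_fun hT.measurableSet fun x hx => ?_
    simp only [hg]
    rw [Real.mul_rpow (Real.rpow_nonneg (hY0 x hx) _) (Real.rpow_nonneg (hw0 x hx) _),
      ← Real.rpow_mul (hw0 x hx), one_div_mul_cancel hq0.ne', Real.rpow_one,
      ← Real.rpow_mul (hY0 x hx)]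
    have : (m : ℝ) / (m + 1) * q = ((2 * m : ℕ) : ℝ) := by
      rw [hq]
      push_cast
      field_simp
    rw [this, Real.rpow_natCast, mul_comm]
  rw [e1, e2, e3] at key
  have e4 : 1 / p = (2 * (m : ℝ) + 1) / (2 * m + 2) := by rw [hp, one_div, inv_div]
  rw [e4] at key
  exact key

end hoelder

/-- The final numerical step. -/
theorem num_aux {n : ℕ} (hn : 0 < n) {A0 D m : ℝ} (hA : 0 < A0) (hD : 0 ≤ D) (hm : 0 ≤ m)
    (h : A0 ≤ D * A0 ^ ((1 : ℝ) / ((n : ℝ) + 1)) * m ^ ((2 * (n : ℝ) + 1) / (2 * n + 2))) :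
    A0 ≤ D ^ (((n : ℝ) + 1) / n) * m ^ (1 + 1 / (2 * (n : ℝ))) := by
  have hn' : (0 : ℝ) < n := by exact_mod_cast hn
  have h1 : A0 ^ ((n : ℝ) / ((n : ℝ) + 1)) ≤ D * m ^ ((2 * (n : ℝ) + 1) / (2 * n + 2)) := by
    have h2 : A0 = A0 ^ ((n : ℝ) / ((n : ℝ) + 1)) * A0 ^ ((1 : ℝ) / ((n : ℝ) + 1)) := by
      rw [← Real.rpow_add hA]
      have : (n : ℝ) / ((n : ℝ) + 1) + 1 / ((n : ℝ) + 1) = 1 := by field_simp
      rw [this, Real.rpow_one]
    have h3 : 0 < A0 ^ ((1 : ℝ) / ((n : ℝ) + 1)) := Real.rpow_pos_of_pos hA _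
    rw [← mul_le_mul_iff_left₀ h3]
    calc A0 ^ ((n : ℝ) / ((n : ℝ) + 1)) * A0 ^ ((1 : ℝ) / ((n : ℝ) + 1)) = A0 := h2.symm
      _ ≤ D * A0 ^ ((1 : ℝ) / ((n : ℝ) + 1)) * m ^ ((2 * (n : ℝ) + 1) / (2 * n + 2)) := h
      _ = D * m ^ ((2 * (n : ℝ) + 1) / (2 * n + 2)) * A0 ^ ((1 : ℝ) / ((n : ℝ) + 1)) := by ring
  have h4 := Real.rpow_le_rpow (by positivity) h1 (z := ((n : ℝ) + 1) / n) (by positivity)
  rw [← Real.rpow_mul hA.le, Real.mul_rpow hD (Real.rpow_nonneg hm _), ← Real.rpow_mul hm] at h4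
  have e1 : (n : ℝ) / ((n : ℝ) + 1) * (((n : ℝ) + 1) / n) = 1 := by field_simp
  have e2 : (2 * (n : ℝ) + 1) / (2 * n + 2) * (((n : ℝ) + 1) / n) = 1 + 1 / (2 * (n : ℝ)) := by
    field_simp
  rw [e1, Real.rpow_one, e2] at h4
  exact h4

theorem det_cont {n : ℕ} {T : Set (Cn n)} {Q : Cn n → Matrix (Fin n) (Fin n) ℂ}
    (h : ∀ i j, ContinuousOn (fun x => Q x i j) T) : ContinuousOn (fun x => (Q x).det.re) T := by
  have h1 : ContinuousOn Q T := by
    refine continuousOn_pi.2 fun i => continuousOn_pi.2 fun j => h i j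
  have h2 : Continuous fun A : Matrix (Fin n) (Fin n) ℂ => A.det.re :=
    Complex.continuous_re.comp (continuous_id.matrix_det)
  exact h2.comp_continuousOn h1

theorem det_pos {n : ℕ} {A : Matrix (Fin n) (Fin n) ℂ} (h : A.PosDef) : 0 < A.det.re := by
  have := h.det_pos
  rw [Complex.lt_def] at this
  simpa using this.1

theorem hols (h1 : S_KETP.{u}) (h3 : S_GPT.{u}) (h4 : S_LPQ.{u}) : S_HOLS.{u} := by
  intro n hn T G _ R H hket κ hκ a K
  have hn' : (0 : ℝ) < n := by exact_mod_cast hn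
  have hT : IsOpen T := hket.et.isOpen
  have hTm : MeasurableSet T := hT.measurableSet
  obtain ⟨hκs, hκc, hκT⟩ := hκ.test
  have hKc : IsCompact (tsupport κ) := hκc
  have hκcont : ContinuousOn κ T := hκs.continuous.continuousOn
  have hκ0 : ∀ x, x ∉ tsupport κ → κ x = 0 := fun x hx => image_eq_zero_of_notMem_tsupport hx
  obtain ⟨C1, hC1⟩ := h4 T R H hket κ hκ a 1 le_rfl
  obtain ⟨C2, hC2⟩ := h4 T R H hket κ hκ a (2 * n) (by omega)
  have hHd : ContinuousOn (fun x => (H x).det.re) T :=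
    det_cont fun i j => (hket.smooth i j).continuousOn
  have hHp : ∀ x ∈ T, 0 < (H x).det.re := fun x hx => det_pos (hket.posDef x hx)
  set IH : ℝ := ∫ x in T, κ x * (H x).det.re with hIH
  have hIH0 : 0 ≤ IH := setIntegral_nonneg hTm fun x hx =>
    mul_nonneg (hκ.nonneg x) (hHp x hx).le
  set A1 : ℝ := 1 + |K| * |C1| with hA1
  have hA10 : 0 ≤ A1 := by positivity
  set M : ℝ := |K| * (2 ^ (2 * n - 1) * ((2 * A1 + 5) ^ (2 * n) * IH + |C2|)) with hM
  have hM0 : 0 ≤ M := by positivity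
  set cn : ℝ := (4 * (((n : ℝ) + 1) / n) ^ n) ^ ((1 : ℝ) / ((n : ℝ) + 1)) with hcn
  have hcn0 : 0 ≤ cn := by positivity
  set D : ℝ := cn * M ^ (1 / (2 * (n : ℝ) + 2)) with hD
  have hD0 : 0 ≤ D := by positivity
  refine ⟨D ^ (((n : ℝ) + 1) / n), ?_⟩
  intro χ φ v hχ hφ hv hdens s r hs hr
  set Q : Cn n → Matrix (Fin n) (Fin n) ℂ := pert χ φ with hQ
  have hQket : KEt T R Q := ((h1 T R hket.et).1 χ φ hχ.chf hχ.inv hφ.pot.inv).2.2 hφ.pot.pos
  have hQd : ContinuousOn (fun x => (Q x).det.re) T :=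
    det_cont fun i j => (hQket.smooth i j).continuousOn
  have hQp : ∀ x ∈ T, 0 < (Q x).det.re := fun x hx => det_pos (hQket.posDef x hx)
  set w : Cn n → ℝ := fun x => κ x * (Q x).det.re with hw
  have hwc : ContinuousOn w T := hκcont.mul hQd
  have hw0 : ∀ x ∈ T, 0 ≤ w x := fun x hx => mul_nonneg (hκ.nonneg x) (hQp x hx).le
  have hwK : ∀ x ∈ T, x ∉ tsupport κ → w x = 0 := by
    intro x _ hx
    simp only [hw]
    rw [hκ0 x hx, zero_mul]
  -- integrability
  have hint : ∀ g : Cn n → ℝ, ContinuousOn g T → IntegrableOn (fun x => w x * g x) T := by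
    intro g hg
    refine integ_cs hKc hκT (hwc.mul hg) ?_ hT
    intro x hx hxK
    rw [hwK x hx hxK, zero_mul]
  have hintw : IntegrableOn w T := integ_cs hKc hκT hwc hwK hT
  have hintH : ∀ g : Cn n → ℝ, ContinuousOn g T →
      IntegrableOn (fun x => κ x * (H x).det.re * g x) T := by
    intro g hg
    refine integ_cs hKc hκT ((hκcont.mul hHd).mul hg) ?_ hT
    intro x hx hxK
    rw [hκ0 x hxK, zero_mul, zero_mul]
  set V : ℝ := vol T κ Q with hV
  have hVw : V = ∫ x in T, w x := rfl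
  have hV0 : 0 ≤ V := by rw [hVw]; exact setIntegral_nonneg hTm hw0
  rcases hV0.eq_or_lt with hV0' | hVpos
  · rw [← hV0', div_zero, div_zero, mul_zero, Real.zero_rpow (by positivity), mul_zero]
  -- comparison of the densities
  have hcmp : ∀ g : Cn n → ℝ, ContinuousOn g T → (∀ x ∈ T, 0 ≤ g x) →
      ∫ x in T, w x * g x ≤ |K| * V * ∫ x in T, κ x * (H x).det.re * g x := by
    intro g hg hg0
    rw [← integral_const_mul]
    refine setIntegral_mono_on (hint g hg) ((hintH g hg).const_mul _) hTm ?_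
    intro x hx
    have e1 : (Q x).det.re ≤ |K| * V * (H x).det.re := by
      refine (hdens x hx).trans ?_
      have : K * V ≤ |K| * V := mul_le_mul_of_nonneg_right (le_abs_self K) hV0
      exact mul_le_mul_of_nonneg_right this (hHp x hx).le
    calc w x * g x = (Q x).det.re * (κ x * g x) := by simp only [hw]; ring
      _ ≤ (|K| * V * (H x).det.re) * (κ x * g x) :=
          mul_le_mul_of_nonneg_right e1 (mul_nonneg (hκ.nonneg x) (hg0 x hx))
      _ = |K| * V * (κ x * (H x).det.re * g x) := by ring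
  have hpsd : ∀ ψ : Cn n → ℝ, Pot T R χ ψ → ∀ x ∈ T, ((a : ℂ) • H x + LM ψ x).PosSemidef := by
    intro ψ hψ x hx
    have e1 := (hχ.le x hx).add (hψ.pos x hx).posSemidef
    have e2 : (a : ℂ) • H x - χ x + pert χ ψ x = (a : ℂ) • H x + LM ψ x := by
      unfold pert
      abel
    rwa [e2] at e1
  have hφc : ContinuousOn φ T := hφ.pot.inv.1.continuousOn
  have hvc : ContinuousOn v T := hv.pot.inv.1.continuousOn
  have hBc : ContinuousOn (fun x => v x - φ x) T := hvc.sub hφc
  have hSm : ∀ t : ℝ, ∃ S : Set (Cn n), IsOpen S ∧ T ∩ {x | t < v x - φ x} = T ∩ S := by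
    intro t
    obtain ⟨S, hS, hSe⟩ := (_root_.continuousOn_iff'.1 hBc) (Ioi t) isOpen_Ioi
    refine ⟨S, hS, ?_⟩
    rw [inter_comm T S, ← hSe]
    ext x
    simp only [mem_inter_iff, mem_ofPred_eq, mem_preimage, mem_Ioi]
    tauto
  obtain ⟨S1, hS1o, hS1⟩ := hSm s
  obtain ⟨S2, hS2o, hS2⟩ := hSm (s + r)
  have hmaxc : ContinuousOn (fun x => max (v x - φ x - s) 0) T :=
    ContinuousOn.sup (hBc.sub continuousOn_const) continuousOn_const
  set J : ℝ := ∫ x in T, w x * max (v x - φ x - s) 0 with hJ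
  have hJ0 : 0 ≤ J := setIntegral_nonneg hTm fun x hx =>
    mul_nonneg (hw0 x hx) (le_max_right _ _)
  set ms : ℝ := ∫ x in T ∩ {x | s < v x - φ x}, w x with hms
  have hms0 : 0 ≤ ms := by
    rw [hms, hS1]
    exact setIntegral_nonneg (hTm.inter hS1o.measurableSet) fun x hx => hw0 x hx.1
  -- step 2
  have step2 : r * ∫ x in T ∩ {x | s + r < v x - φ x}, w x ≤ J := by
    rw [← integral_const_mul]
    have e1 : ∫ x in T ∩ {x | s + r < v x - φ x}, r * w x ≤
        ∫ x in T ∩ {x | s + r < v x - φ x}, w x * max (v x - φ x - s) 0 := by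
      have hm2 : MeasurableSet (T ∩ {x | s + r < v x - φ x}) := by
        rw [hS2]; exact hTm.inter hS2o.measurableSet
      refine setIntegral_mono_on ((hintw.mono_set inter_subset_left).const_mul _)
        ((hint _ hmaxc).mono_set inter_subset_left) hm2 ?_
      intro x hx
      rw [mul_comm r]
      refine mul_le_mul_of_nonneg_left ?_ (hw0 x hx.1)
      have : s + r < v x - φ x := hx.2
      exact le_max_of_le_left (by linarith)
    refine e1.trans ?_
    refine setIntegral_mono_set (hint _ hmaxc) ?_ inter_subset_left.eventuallyLE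
    rw [Filter.EventuallyLE, ae_restrict_iff' hTm]
    exact Eventually.of_forall fun x hx => mul_nonneg (hw0 x hx) (le_max_right _ _)
  -- step 1
  have step1 : J / V ≤ D ^ (((n : ℝ) + 1) / n) * (ms / V) ^ (1 + 1 / (2 * (n : ℝ))) := by
    rcases hJ0.eq_or_lt with hJz | hJpos
    · rw [← hJz, zero_div]
      positivity
    have hA0 : 0 < J / V := div_pos hJpos hVpos
    set A0 : ℝ := J / V with hA0d
    have hJA : J = A0 * V := by rw [hA0d]; field_simp
    refine num_aux hn hA0 hD0 (by positivity) ?_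
    have hη : 0 < min A0 1 := lt_min hA0 one_pos
    obtain ⟨A, ψ, hA, hAV, hψ, hpt⟩ := h3 hn T R H a χ φ v κ hχ hκ hφ.pot hv s (min A0 1) hη
    -- bounds for A
    have hAV' : A * V ≤ J + min A0 1 * V := hAV
    have hAle : A ≤ A0 + min A0 1 := by
      rw [hJA, ← add_mul] at hAV'
      exact le_of_mul_le_mul_right hAV' hVpos
    have hA2 : A ≤ 2 * A0 := by have := min_le_left A0 1; linarith
    have hA0A1 : A0 ≤ A1 := by
      rw [hA0d, div_le_iff₀ hVpos]
      have hc1 : ContinuousOn (fun x => (-φ x) ^ 1) T := (hφc.neg).pow 1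
      have e1 : J ≤ ∫ x in T, (w x + w x * (-φ x) ^ 1) := by
        refine setIntegral_mono_on (hint _ hmaxc) (hintw.add (hint _ hc1)) hTm ?_
        intro x hx
        have h5 : max (v x - φ x - s) 0 ≤ 1 + (-φ x) ^ 1 := by
          have := hv.le x hx
          have := hφ.le x hx
          rw [pow_one]
          exact max_le (by linarith) (by linarith)
        calc w x * max (v x - φ x - s) 0 ≤ w x * (1 + (-φ x) ^ 1) :=
              mul_le_mul_of_nonneg_left h5 (hw0 x hx)
          _ = w x + w x * (-φ x) ^ 1 := by ring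
      rw [integral_add hintw (hint _ hc1)] at e1
      have e2 := hcmp (fun x => (-φ x) ^ 1) hc1 (fun x hx => by
        have := hφ.le x hx
        rw [pow_one]; linarith)
      have e3 := hC1 φ hφ.pot.inv (hpsd φ hφ.pot) hφ.le hφ.eq
      have e4 : |K| * V * ∫ x in T, κ x * (H x).det.re * (-φ x) ^ 1 ≤ |K| * V * |C1| :=
        mul_le_mul_of_nonneg_left (e3.trans (le_abs_self _)) (by positivity)
      rw [← hVw] at e1
      calc J ≤ V + |K| * V * |C1| := by linarith
        _ = A1 * V := by rw [hA1]; ring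
    have hA3 : A ≤ A1 + 1 := by have := min_le_right A0 1; linarith
    -- the function Y
    set Y : Cn n → ℝ := fun x => (2 * A1 + 5) + (-ψ x) with hY
    have hψc : ContinuousOn ψ T := hψ.pot.inv.1.continuousOn
    have hYc : ContinuousOn Y T := continuousOn_const.add hψc.neg
    have hY0 : ∀ x ∈ T, 0 ≤ Y x := by
      intro x hx
      have := hψ.le x hx
      simp only [hY]
      linarith
    set cA : ℝ := (2 * A * (((n : ℝ) + 1) / n) ^ n) ^ ((1 : ℝ) / ((n : ℝ) + 1)) with hcA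
    have hcA0 : 0 ≤ cA := by positivity
    have hJ1 : J ≤ cA * ∫ x in T ∩ S1, w x * Y x ^ ((n : ℝ) / ((n : ℝ) + 1)) := by
      have e1 : J = ∫ x in T ∩ S1, w x * max (v x - φ x - s) 0 := by
        refine setIntegral_eq_of_subset_of_forall_sdiff_eq_zero hTm inter_subset_left ?_
        intro x hx
        have h5 : ¬ s < v x - φ x := by
          intro h6
          apply hx.2
          rw [← hS1]
          exact ⟨hx.1, h6⟩
        rw [max_eq_right (by linarith), mul_zero]
      rw [e1, ← integral_const_mul]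
      have hYi : IntegrableOn (fun x => w x * Y x ^ ((n : ℝ) / ((n : ℝ) + 1))) T :=
        hint _ (hYc.rpow_const fun x _ => Or.inr (by positivity))
      refine setIntegral_mono_on ((hint _ hmaxc).mono_set inter_subset_left)
        ((hYi.mono_set inter_subset_left).const_mul _) (hTm.inter hS1o.measurableSet) ?_
      intro x hx
      have hxT := hx.1
      have hx1 : s < v x - φ x := by
        have : x ∈ T ∩ {x | s < v x - φ x} := by rw [hS1]; exact hx
        exact this.2
      rw [max_eq_left (by linarith)]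
      have h5 : v x - φ x - s ≤ cA * Y x ^ ((n : ℝ) / ((n : ℝ) + 1)) := by
        refine (hpt x hxT).trans (mul_le_mul_of_nonneg_left ?_ hcA0)
        refine Real.rpow_le_rpow ?_ ?_ (by positivity)
        · have := hv.max ψ hψ.pot hψ.le x hxT
          linarith
        · have := hv.le x hxT
          simp only [hY]
          linarith
      calc w x * (v x - φ x - s) ≤ w x * (cA * Y x ^ ((n : ℝ) / ((n : ℝ) + 1))) :=
            mul_le_mul_of_nonneg_left h5 (hw0 x hxT)
        _ = cA * (w x * Y x ^ ((n : ℝ) / ((n : ℝ) + 1))) := by ring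
    have hYint : ∫ x in T, w x * Y x ^ (2 * n) ≤ V * M := by
      have hc2 : ContinuousOn (fun x => Y x ^ (2 * n)) T := hYc.pow _
      have e1 := hcmp (fun x => Y x ^ (2 * n)) hc2 (fun x hx => pow_nonneg (hY0 x hx) _)
      refine e1.trans ?_
      have hc3 : ContinuousOn (fun x => (-ψ x) ^ (2 * n)) T := hψc.neg.pow _
      have e2 : ∫ x in T, κ x * (H x).det.re * Y x ^ (2 * n) ≤
          ∫ x in T, (2 ^ (2 * n - 1) * (2 * A1 + 5) ^ (2 * n) * (κ x * (H x).det.re) +
            2 ^ (2 * n - 1) * (κ x * (H x).det.re * (-ψ x) ^ (2 * n))) := by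
        have hi1 : IntegrableOn (fun x => κ x * (H x).det.re) T :=
          integ_cs hKc hκT (hκcont.mul hHd) (fun x hx hxK => by rw [hκ0 x hxK, zero_mul]) hT
        refine setIntegral_mono_on (hintH _ hc2)
          ((hi1.const_mul _).add ((hintH _ hc3).const_mul _)) hTm ?_
        intro x hx
        have h5 : Y x ^ (2 * n) ≤ 2 ^ (2 * n - 1) * ((2 * A1 + 5) ^ (2 * n) +
            (-ψ x) ^ (2 * n)) := by
          have := hψ.le x hx
          exact add_pow_le (by positivity) (by linarith) _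
        calc κ x * (H x).det.re * Y x ^ (2 * n)
            ≤ κ x * (H x).det.re * (2 ^ (2 * n - 1) * ((2 * A1 + 5) ^ (2 * n) +
              (-ψ x) ^ (2 * n))) :=
              mul_le_mul_of_nonneg_left h5 (mul_nonneg (hκ.nonneg x) (hHp x hx).le)
          _ = _ := by ring
      have e3 : ∫ x in T, (2 ^ (2 * n - 1) * (2 * A1 + 5) ^ (2 * n) * (κ x * (H x).det.re) +
            2 ^ (2 * n - 1) * (κ x * (H x).det.re * (-ψ x) ^ (2 * n))) =
          2 ^ (2 * n - 1) * (2 * A1 + 5) ^ (2 * n) * IH +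
            2 ^ (2 * n - 1) * ∫ x in T, κ x * (H x).det.re * (-ψ x) ^ (2 * n) := by
        have hi1 : IntegrableOn (fun x => κ x * (H x).det.re) T :=
          integ_cs hKc hκT (hκcont.mul hHd) (fun x hx hxK => by rw [hκ0 x hxK, zero_mul]) hT
        rw [integral_add (hi1.const_mul _) ((hintH _ hc3).const_mul _), integral_const_mul,
          integral_const_mul]
      have e4 := hC2 ψ hψ.pot.inv (hpsd ψ hψ.pot) hψ.le hψ.eq
      have e5 : ∫ x in T, κ x * (H x).det.re * Y x ^ (2 * n) ≤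
          2 ^ (2 * n - 1) * ((2 * A1 + 5) ^ (2 * n) * IH + |C2|) := by
        rw [e3] at e2
        refine e2.trans ?_
        have : (2 : ℝ) ^ (2 * n - 1) * ∫ x in T, κ x * (H x).det.re * (-ψ x) ^ (2 * n) ≤
            2 ^ (2 * n - 1) * |C2| :=
          mul_le_mul_of_nonneg_left (e4.trans (le_abs_self _)) (by positivity)
        linarith
      calc |K| * V * ∫ x in T, κ x * (H x).det.re * Y x ^ (2 * n) ≤
          |K| * V * (2 ^ (2 * n - 1) * ((2 * A1 + 5) ^ (2 * n) * IH + |C2|)) :=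
            mul_le_mul_of_nonneg_left e5 (by positivity)
        _ = V * M := by rw [hM]; ring
    have hHol := hoelder_aux hKc hκT hT hwc hw0 hwK hYc hY0 n hn hS1o.measurableSet
    have hms' : ∫ x in T ∩ S1, w x = ms := by rw [hms, hS1]
    rw [hms'] at hHol
    have hYi0 : 0 ≤ ∫ x in T, w x * Y x ^ (2 * n) := setIntegral_nonneg hTm fun x hx =>
      mul_nonneg (hw0 x hx) (pow_nonneg (hY0 x hx) _)
    have hJ2 : J ≤ cA * (ms ^ ((2 * (n : ℝ) + 1) / (2 * n + 2)) *
        (V * M) ^ (1 / (2 * (n : ℝ) + 2))) := by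
      refine hJ1.trans (mul_le_mul_of_nonneg_left (hHol.trans ?_) hcA0)
      refine mul_le_mul_of_nonneg_left ?_ (Real.rpow_nonneg hms0 _)
      exact Real.rpow_le_rpow hYi0 hYint (by positivity)
    have hcA2 : cA ≤ cn * A0 ^ ((1 : ℝ) / ((n : ℝ) + 1)) := by
      rw [hcA, hcn, ← Real.mul_rpow (by positivity) hA0.le]
      refine Real.rpow_le_rpow (by positivity) ?_ (by positivity)
      have : 0 < (((n : ℝ) + 1) / n) ^ n := by positivity
      nlinarith
    -- divide by V
    have hVs : V = V ^ ((2 * (n : ℝ) + 1) / (2 * n + 2)) * V ^ (1 / (2 * (n : ℝ) + 2)) := by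
      rw [← Real.rpow_add hVpos]
      have : (2 * (n : ℝ) + 1) / (2 * n + 2) + 1 / (2 * (n : ℝ) + 2) = 1 := by
        field_simp
        ring
      rw [this, Real.rpow_one]
    have hV1 : 0 < V ^ ((2 * (n : ℝ) + 1) / (2 * n + 2)) := Real.rpow_pos_of_pos hVpos _
    have hV2 : 0 < V ^ (1 / (2 * (n : ℝ) + 2)) := Real.rpow_pos_of_pos hVpos _
    rw [Real.mul_rpow hV0 hM0] at hJ2
    rw [Real.div_rpow hms0 hV0]
    rw [hA0d, div_le_iff₀ hVpos, ← hA0d]
    calc J ≤ cA * (ms ^ ((2 * (n : ℝ) + 1) / (2 * n + 2)) *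
        (V ^ (1 / (2 * (n : ℝ) + 2)) * M ^ (1 / (2 * (n : ℝ) + 2)))) := hJ2
      _ ≤ (cn * A0 ^ ((1 : ℝ) / ((n : ℝ) + 1))) * (ms ^ ((2 * (n : ℝ) + 1) / (2 * n + 2)) *
        (V ^ (1 / (2 * (n : ℝ) + 2)) * M ^ (1 / (2 * (n : ℝ) + 2)))) :=
          mul_le_mul_of_nonneg_right hcA2 (by positivity)
      _ = D * A0 ^ ((1 : ℝ) / ((n : ℝ) + 1)) * (ms ^ ((2 * (n : ℝ) + 1) / (2 * n + 2)) /
          V ^ ((2 * (n : ℝ) + 1) / (2 * n + 2))) *
          (V ^ ((2 * (n : ℝ) + 1) / (2 * n + 2)) * V ^ (1 / (2 * (n : ℝ) + 2))) := by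
          rw [hD]
          field_simp
      _ = D * A0 ^ ((1 : ℝ) / ((n : ℝ) + 1)) * (ms ^ ((2 * (n : ℝ) + 1) / (2 * n + 2)) /
          V ^ ((2 * (n : ℝ) + 1) / (2 * n + 2))) * V := by rw [← hVs]
  calc r * ((∫ x in T ∩ {x | s + r < v x - φ x}, κ x * (Q x).det.re) / V)
      = (r * ∫ x in T ∩ {x | s + r < v x - φ x}, w x) / V := by ring
    _ ≤ J / V := div_le_div_of_nonneg_right step2 hV0
    _ ≤ D ^ (((n : ℝ) + 1) / n) * (ms / V) ^ (1 + 1 / (2 * (n : ℝ))) := step1

end Pool.Agent.Helper31.HS
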